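import Pool.Agent.V5helper67.EAL.Cuts

open Finset

namespace Pool.Agent.V5helper67.EAL

open Pool.Agent.Helper120.EaModel Pool.Agent.V5helper67.EA

namespace Pm

variable {Q : Pm}

open Classical in
/-- index of the first rim bundle of the block `j` that is used (`g` if there is none) -/
noncomputable def pos (x : Finset Q.Ex) (j : Fin Q.L) : ℕ :=
  if h : ∃ i, R x j i then Nat.find h else Q.g

theorem pos_le {x : Finset Q.Ex} {j : Fin Q.L} {i : ℕ} (h : R x j i) : pos x j ≤ i := by
  classical
  unfold pos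
  rw [dif_pos ⟨i, h⟩]
  exact Nat.find_min' _ h

theorem not_R_lt {x : Finset Q.Ex} {j : Fin Q.L} {i : ℕ} (h : i < pos x j) : ¬ R x j i := by
  intro hR
  have := pos_le hR
  omega

theorem R_pos {x : Finset Q.Ex} {j : Fin Q.L} (h : pos x j < Q.g) : R x j (pos x j) := by
  classical
  unfold pos at h ⊢
  split_ifs at h ⊢ with h1
  · exact Nat.find_spec h1
  · omega

theorem one_le_pos (x : Finset Q.Ex) (j : Fin Q.L) : 1 ≤ pos x j := by
  by_contra hcon
  have h0 : pos x j = 0 := by omega
  have h1 := R_pos (x := x) (j := j) (by have := Q.hg; omega)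
  rw [h0] at h1
  exact not_R_zero x j h1

theorem pos_le_of {x : Finset Q.Ex} {j : Fin Q.L} : pos x j ≤ Q.g := by
  by_contra hcon
  have : pos x j ≤ Q.g := by
    classical
    unfold pos
    split_ifs with h
    · obtain ⟨i, hi⟩ := h
      have h2 : i < Q.g := hi.1
      exact (Nat.find_min' ⟨i, hi⟩ hi).trans h2.le
    · exact le_rfl
  omega

theorem blk_swap {x : Finset Q.Ex} (hx : (GG Q).IsSpanningTree x) (j : Fin Q.L) {a b : ℕ}
    (hab : a ≤ b) {p : ℕ → ℕ} (hp : ∀ l, a ≤ l → l ≤ b → p l < Q.sl l) {e f : Q.Ex}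
    (he : e ∈ x) (hf : f ∉ x) (h : ∀ e' ∈ x, e' ≠ e → ¬ Cr j a b p e') (hfc : Cr j a b p f) :
    (GG Q).IsSpanningTree (insert f (x.erase e)) := by
  classical
  rw [cr_iff hab hp] at hfc
  exact cut_swap hx he hf (ends_closed hab hp (fun e' => e' ≠ e) h) (u := hiV f) (v := loV f)
    rfl hfc

theorem run_end {x : Finset Q.Ex} {j : Fin Q.L} {i : ℕ} (hR : R x j i) :
    ∃ b, i ≤ b ∧ b < Q.g ∧ (∀ r, i ≤ r → r ≤ b → R x j r) ∧ ¬ R x j (b + 1) := by
  classical
  have h : ∃ r, i < r ∧ ¬ R x j r := ⟨Q.g, hR.1, not_R_g x j le_rfl⟩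
  obtain ⟨h1, h2⟩ := Nat.find_spec h
  have hm : ∀ r, r < Nat.find h → ¬ (i < r ∧ ¬ R x j r) := fun r hr => Nat.find_min h hr
  have hle : Nat.find h ≤ Q.g := Nat.find_min' h ⟨hR.1, not_R_g x j le_rfl⟩
  refine ⟨Nat.find h - 1, by omega, by omega, ?_, ?_⟩
  · intro r h3 h4
    rcases Nat.eq_or_lt_of_le h3 with h5 | h5
    · rw [← h5]; exact hR
    · have := hm r (by omega)
      by_contra h6
      exact this ⟨h5, h6⟩
  · rw [Nat.sub_add_cancel (by omega)]
    exact h2

/-- an exchange of `e` for `f` that is a gain in the block `j` and moves the position only a bit -/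
def Gain (x : Finset Q.Ex) (j : Fin Q.L) (e f : Q.Ex) : Prop :=
  e ∈ x ∧ f ∉ x ∧ bl e = some j ∧ bl f = some j ∧ lw f < lw e ∧
    (GG Q).IsSpanningTree (insert f (x.erase e)) ∧
    pos (insert f (x.erase e)) j ≤ pos x j + 1

theorem R_swap {x : Finset Q.Ex} {j : Fin Q.L} {i : ℕ} (h : R x j i) {e f : Q.Ex}
    (he : ∀ (hi : i < Q.g) (k : Fin (Q.rm i)), re j ⟨i, hi⟩ k ∈ x → re j ⟨i, hi⟩ k ≠ e) :
    R (insert f (x.erase e)) j i := by
  obtain ⟨hi, k, hk⟩ := h
  exact ⟨hi, k, mem_insert_of_mem (mem_erase.2 ⟨he hi k hk, hk⟩)⟩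

theorem se_ne_re {j j' : Fin Q.L} {l i : Fin Q.g} {t : Fin (Q.sl l)} {k : Fin (Q.rm i)} :
    (se j l t : Q.Ex) ≠ re j' i k := by
  simp [se, re]

theorem re_inj1 {j j' : Fin Q.L} {i i' : Fin Q.g} {k : Fin (Q.rm i)} {k' : Fin (Q.rm i')}
    (h : (re j i k : Q.Ex) = re j' i' k') : i = i' := by
  simp only [re, Sum.inr.injEq, Prod.mk.injEq] at h
  exact congrArg Sigma.fst h.2

theorem gain_moves {x : Finset Q.Ex} (hx : St x) (j : Fin Q.L)
    (hpos : pos x j + 1 + Q.n ≤ Q.g) :
    ∃ φ : Fin Q.n → Q.Ex × Q.Ex, Function.Injective φ ∧ ∀ k, Gain x j (φ k).1 (φ k).2 := by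
  classical
  have hn := Q.hn
  obtain ⟨i, hi⟩ : ∃ i, i = pos x j := ⟨_, rfl⟩
  have hi1 : 1 ≤ i := by rw [hi]; exact one_le_pos x j
  rw [← hi] at hpos
  have hRi : R x j i := by rw [hi]; exact R_pos (by omega)
  have hlt : ∀ r, r < i → ¬ R x j r := fun r hr => not_R_lt (by omega)
  obtain ⟨b, hb1, hb2, hb3, hb4⟩ := run_end hRi
  have hmp : ∀ a b : ℕ, ∀ l, a ≤ l → l ≤ b → mis x j l < Q.sl l := fun _ _ l _ _ => mis_lt x j l
  by_cases hC : ∃ s, i ≤ s ∧ s ≤ b ∧ C x j s
  · -- move of the complete spoke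
    obtain ⟨s, hs1, hs2, hs3⟩ := hC
    have hsg : s < Q.g := by omega
    have hsl : Q.sl s = Q.n := by unfold sl; rw [if_neg (by omega)]
    have hinc : ∀ l, i - 1 ≤ l → l ≤ b → l ≠ s → ¬ C x j l := by
      intro l h1 h2 h3 h4
      rcases Nat.lt_or_gt_of_ne h3 with h5 | h5
      · exact no_two hx j h5 hsg (fun r h6 h7 => hb3 r (by omega) (by omega)) h4 hs3
      · exact no_two hx j h5 (by omega) (fun r h6 h7 => hb3 r (by omega) (by omega)) hs3 h4
    have hig : i - 1 < Q.g := by omega
    have hinc0 := hinc (i - 1) le_rfl (by omega) (by omega)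
    have hf := mis_notMem hinc0 hig
    refine ⟨fun k => (se j ⟨s, hsg⟩ ⟨k.val, by show k.val < Q.sl s; rw [hsl]; exact k.2⟩,
      se j ⟨i - 1, hig⟩ ⟨mis x j (i - 1), mis_lt x j (i - 1)⟩), ?_, ?_⟩
    · intro k k' h
      simp only [Prod.mk.injEq, and_true, se, Sum.inl.injEq, true_and, Sigma.mk.injEq,
        heq_eq_eq, Fin.mk.injEq] at h
      exact Fin.ext h
    · intro k
      refine ⟨hs3 hsg _, hf, rfl, rfl, ?_, ?_, ?_⟩
      · show i - 1 < s
        omega
      · refine blk_swap hx.1 j (a := i - 1) (b := b)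
          (p := fun l => if l = s then k.val else mis x j l) (by omega) ?_ (hs3 hsg _) hf ?_ ?_
        · intro l _ _
          by_cases h : l = s
          · simp only [h, if_true]
            rw [hsl]
            exact k.2
          · simp only [h, if_false]
            exact mis_lt x j l
        · intro e' he' hne hcr
          rcases e' with (⟨j', ⟨l, t⟩⟩ | ⟨j', ⟨r, q⟩⟩ | q) | ⟨j', ⟨r, q⟩⟩
          · obtain ⟨h1, h2, h3, h4⟩ := hcr
            subst h1
            replace h4 : t.val = if l.val = s then k.val else mis x j' l.val := h4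
            by_cases hls : l.val = s
            · apply hne
              have h5 : l = ⟨s, hsg⟩ := Fin.ext hls
              subst h5
              simp only [if_true] at h4
              show (Sum.inl (Sum.inl (j', ⟨⟨s, hsg⟩, t⟩)) : Q.Ex) = se j' ⟨s, hsg⟩ _
              unfold se
              have h6 : t = ⟨k.val, by show k.val < Q.sl s; rw [hsl]; exact k.2⟩ := Fin.ext h4
              rw [← h6]
            · rw [if_neg hls] at h4
              have h5 := mis_notMem (hinc l.val h2 h3 hls) l.2
              apply h5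
              have h6 : (⟨mis x j' l.val, mis_lt x j' l.val⟩ : Fin (Q.sl l)) = t := Fin.ext h4.symm
              rw [h6]
              exact he'
          · exact hcr
          · exact hcr
          · obtain ⟨h1, h2⟩ := hcr
            subst h1
            rcases h2 with h2 | h2
            · exact hlt (i - 1) (by omega) (h2 ▸ ⟨r.2, q, he'⟩)
            · exact hb4 (h2 ▸ ⟨r.2, q, he'⟩)
        · refine ⟨rfl, le_rfl, ?_, ?_⟩
          · show i - 1 ≤ b
            omega
          · show mis x j (i - 1) = if i - 1 = s then k.val else mis x j (i - 1)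
            rw [if_neg (by omega)]
      · have h1 : R (insert (se j ⟨i - 1, hig⟩ ⟨mis x j (i - 1), mis_lt x j (i - 1)⟩)
            (x.erase (se j ⟨s, hsg⟩ ⟨k.val, by show k.val < Q.sl s; rw [hsl]; exact k.2⟩))) j i :=
          R_swap hRi (fun _ _ _ h => se_ne_re h.symm)
        exact (pos_le h1).trans (by omega)
  · push Not at hC
    by_cases hbg : b + 1 < Q.g
    · -- jump of a rim edge
      obtain ⟨hig, ki, hki⟩ := id hRi
      have hrm : Q.rm (b + 1) = Q.n := by
        unfold rm; rw [if_neg (by omega), if_neg (by omega)]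
      refine ⟨fun k => (re j ⟨i, hig⟩ ki,
        re j ⟨b + 1, hbg⟩ ⟨k.val, by show k.val < Q.rm (b + 1); rw [hrm]; exact k.2⟩), ?_, ?_⟩
      · intro k k' h
        simp only [Prod.mk.injEq, re, Sum.inr.injEq, true_and, Sigma.mk.injEq,
          heq_eq_eq, Fin.mk.injEq] at h
        exact Fin.ext h
      · intro k
        have hfx : re j ⟨b + 1, hbg⟩ ⟨k.val, by show k.val < Q.rm (b + 1); rw [hrm]; exact k.2⟩ ∉ x :=
          fun h => hb4 ⟨hbg, _, h⟩
        refine ⟨hki, hfx, rfl, rfl, ?_, ?_, ?_⟩
        · show 3 * Q.g - (b + 1) < 3 * Q.g - i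
          omega
        · refine blk_swap hx.1 j (a := i) (b := b) (p := mis x j) hb1 (hmp i b) hki hfx ?_ ?_
          · intro e' he' hne hcr
            rcases e' with (⟨j', ⟨l, t⟩⟩ | ⟨j', ⟨r, q⟩⟩ | q) | ⟨j', ⟨r, q⟩⟩
            · obtain ⟨h1, h2, h3, h4⟩ := hcr
              subst h1
              apply mis_notMem (hC l.val h2 h3) l.2
              have h6 : (⟨mis x j' l.val, mis_lt x j' l.val⟩ : Fin (Q.sl l)) = t := Fin.ext h4.symm
              rw [h6]
              exact he'
            · exact hcr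
            · exact hcr
            · obtain ⟨h1, h2⟩ := hcr
              subst h1
              rcases h2 with h2 | h2
              · apply hne
                have h5 : r = ⟨i, hig⟩ := Fin.ext h2
                subst h5
                have h6 := rim_unique hx (j := j') (i := ⟨i, hig⟩) (k := q) (k' := ki) he' hki
                rw [h6]
                rfl
              · exact hb4 (h2 ▸ ⟨r.2, q, he'⟩)
          · exact ⟨rfl, Or.inr rfl⟩
        · rw [← hi]
          apply pos_le
          by_cases hbi : b = i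
          · subst hbi
            exact ⟨hbg, _, mem_insert_self _ _⟩
          · refine R_swap (hb3 (i + 1) (by omega) (by omega)) ?_
            intro hi' k' _ h
            have := congrArg Fin.val (re_inj1 h)
            simp only at this
            omega
    · -- repairs in a jam at the end
      have hbe : b = Q.g - 1 := by omega
      have hgl : Q.g - 1 < Q.g := by omega
      have hfx := mis_notMem (hC (Q.g - 1) (by omega) (by omega)) hgl
      have hRk : ∀ k : Fin Q.n, R x j (i + 1 + k.val) := fun k => hb3 _ (by omega) (by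
        have := k.2; omega)
      refine ⟨fun k => (re j ⟨i + 1 + k.val, (hRk k).1⟩ (hRk k).choose_spec.choose,
        se j ⟨Q.g - 1, hgl⟩ ⟨mis x j (Q.g - 1), mis_lt x j (Q.g - 1)⟩), ?_, ?_⟩
      · intro k k' h
        simp only [Prod.mk.injEq, and_true] at h
        have h2 := congrArg Fin.val (re_inj1 h)
        simp only at h2
        apply Fin.ext
        omega
      · intro k
        have hk := (hRk k).choose_spec.choose_spec
        have hk2 := k.2
        refine ⟨hk, hfx, rfl, rfl, ?_, ?_, ?_⟩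
        · show Q.g - 1 < 3 * Q.g - (i + 1 + k.val)
          omega
        · refine blk_swap hx.1 j (a := i + 1 + k.val) (b := Q.g - 1) (p := mis x j) (by omega)
            (hmp _ _) hk hfx ?_ ?_
          · intro e' he' hne hcr
            rcases e' with (⟨j', ⟨l, t⟩⟩ | ⟨j', ⟨r, q⟩⟩ | q) | ⟨j', ⟨r, q⟩⟩
            · obtain ⟨h1, h2, h3, h4⟩ := hcr
              subst h1
              apply mis_notMem (hC l.val (by omega) (by omega)) l.2
              have h6 : (⟨mis x j' l.val, mis_lt x j' l.val⟩ : Fin (Q.sl l)) = t := Fin.ext h4.symm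
              rw [h6]
              exact he'
            · exact hcr
            · exact hcr
            · obtain ⟨h1, h2⟩ := hcr
              subst h1
              rcases h2 with h2 | h2
              · apply hne
                have h5 : r = ⟨i + 1 + k.val, (hRk k).1⟩ := Fin.ext h2
                subst h5
                have h6 := rim_unique hx (j := j') (i := ⟨i + 1 + k.val, (hRk k).1⟩) (k := q)
                  (k' := (hRk k).choose_spec.choose) he' hk
                rw [h6]
                rfl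
              · have := r.2
                omega
          · refine ⟨rfl, ?_, ?_, rfl⟩
            · show i + 1 + k.val ≤ Q.g - 1
              omega
            · show Q.g - 1 ≤ Q.g - 1
              exact le_rfl
        · have h1 : R (insert (se j ⟨Q.g - 1, hgl⟩ ⟨mis x j (Q.g - 1), mis_lt x j (Q.g - 1)⟩)
              (x.erase (re j ⟨i + 1 + k.val, (hRk k).1⟩ (hRk k).choose_spec.choose))) j i := by
            refine R_swap hRi ?_
            intro hi' k' _ h
            have := congrArg Fin.val (re_inj1 h)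
            simp only at this
            omega
          exact (pos_le h1).trans (by omega)

/-- the pairs that restart a block -/
theorem trig {x : Finset Q.Ex} (hx : (GG Q).IsSpanningTree x) (j : Fin Q.L) (hR : ¬ R x j 1)
    (h0 : 0 < Q.g) (h1 : 1 < Q.g) (t : Fin (Q.sl 0)) (k : Fin (Q.rm 1)) :
    se j ⟨0, h0⟩ t ∈ x ∧ re j ⟨1, h1⟩ k ∉ x ∧
      (GG Q).IsSpanningTree (insert (re j ⟨1, h1⟩ k) (x.erase (se j ⟨0, h0⟩ t))) := by
  classical
  have hC : C x j 0 := by
    obtain ⟨l, _, h2, h3⟩ := exists_complete hx j (a := 0) (b := 0) le_rfl h0 (not_R_zero x j) hR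
    have : l = 0 := by omega
    exact this ▸ h3
  have he : se j ⟨0, h0⟩ t ∈ x := hC h0 t
  have hf : re j ⟨1, h1⟩ k ∉ x := fun h => hR ⟨h1, k, h⟩
  refine ⟨he, hf, ?_⟩
  refine blk_swap hx j (a := 0) (b := 0) (p := fun _ => t.val) le_rfl ?_ he hf ?_ ?_
  · intro l _ h2
    have : l = 0 := by omega
    subst this
    exact t.2
  · intro e' he' hne hcr
    rcases e' with (⟨j', ⟨l, t'⟩⟩ | ⟨j', ⟨r, q⟩⟩ | q) | ⟨j', ⟨r, q⟩⟩
    · obtain ⟨h3, h4, h5, h6⟩ := hcr
      subst h3
      apply hne
      have h7 : l = ⟨0, h0⟩ := Fin.ext (by simpa using h5)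
      subst h7
      have h8 : t' = t := Fin.ext h6
      rw [h8]
      rfl
    · exact hcr
    · exact hcr
    · obtain ⟨h3, h4⟩ := hcr
      subst h3
      rcases h4 with h4 | h4
      · exact not_R_zero x j' (h4 ▸ ⟨r.2, q, he'⟩)
      · replace h4 : r.val = 1 := h4
        exact hR (h4 ▸ ⟨r.2, q, he'⟩)
  · exact ⟨rfl, Or.inr rfl⟩

end Pm

end Pool.Agent.V5helper67.EAL
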