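import Pool.Agent.V5helper67.EAL.Param
import Pool.Agent.Helper120.Ea.Model

/-!
# The (1+1) EA on minimum spanning trees needs `Ω(m^(11/5) / (ln m)²)` rounds

For ALL sufficiently large `m` there is an instance with exactly `m` edges (a connected graph
without loops and parallel edges, positive integer weights, an initial spanning tree) on which the
expected runtime of the (1+1) EA is at least `10⁻⁶ m^(11/5) / (ln m)²`. So `T*(m)` is polynomially
larger than `m²`.

Construction: about `m^(1/5) / ln m` blocks with a common vertex; the weights of a block are much
larger than those of the next block. A block is a fan: about `m^(2/5) ln m` spokes (paths) of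
`m^(2/5)` edges, whose tips are joined to a path by bundles of `m^(2/5)` edges, but the first spoke
and the first bundle have `m^(4/5) ln m` edges. In a clean block all spokes are complete. Once an
edge of the first bundle replaces an edge of the first spoke there is a long avalanche of cheap
improvements (each of them has `m^(2/5)` realisations): the missing spoke edge and the bundle edge
travel through the whole block, which takes about `m²` rounds, and in each of the `m^(2/5)` steps
the first bundle of the next block is activated again with probability `m^(-2/5) ln² m`.
-/

open scoped ENNReal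

namespace Pool.Agent.V5helper67.EAL.PolynomialLowerBound

open Pool.Agent.Helper120.EaModel

/-- For every sufficiently large `m` there is an instance with exactly `m` edges on which the
expected runtime of the (1+1) EA is at least `10⁻⁶ m^(11/5) / (ln m)²`. -/
theorem result :
    ∃ m0 : ℕ, ∀ m : ℕ, m0 ≤ m →
      ∃ (V E : Type) (_ : Fintype V) (_ : Fintype E) (_ : DecidableEq E) (G : WGraph V E)
        (x0 : Finset E), (G.subgraph Finset.univ).Connected ∧ G.IsSpanningTree x0 ∧
        Fintype.card E = m ∧
        ENNReal.ofReal (1 / 10 ^ 6 * ((m : ℝ) ^ (11 / 5 : ℝ) / Real.log m ^ 2)) ≤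
          G.expectedRuntime x0 := by
  obtain ⟨m0, hm0⟩ := Pool.Agent.V5helper67.EAL.Pm.final
  refine ⟨m0, fun m hm => ?_⟩
  obtain ⟨Q, x0, h1, h2, h3⟩ := hm0 m hm
  exact ⟨Q.Vx, Q.Ex, inferInstance, inferInstance, inferInstance, _, x0,
    Pool.Agent.V5helper67.EAL.Pm.conn Q, h1, h2, h3⟩

end Pool.Agent.V5helper67.EAL.PolynomialLowerBound
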