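import Pool.Agent.V5helper67.EAL.Prob
import Pool.Agent.V5helper67.EAL.Fact

open Finset

namespace Pool.Agent.V5helper67.EAL

open Pool.Agent.Helper120.EaModel Pool.Agent.Helper120.EaJ4 Pool.Agent.V5helper67.EA

namespace Pm

variable {Q : Pm}

/-- properties of the weight function of the positions -/
structure Adm (Q : Pm) (u : ℕ → ℝ) (κ τ : ℝ) : Prop where
  nonneg : ∀ i, 0 ≤ u i
  anti : ∀ i i', i ≤ i' → u i' ≤ u i
  one : u 1 = 2
  bd : ∀ i, 0 < u i → i + 1 + Q.n ≤ Q.g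
  drop : ∀ i, u i - u (i + 1) ≤ κ * u i + τ
  κ0 : 0 ≤ κ
  τ0 : 0 ≤ τ
  small : 2 * κ + τ ≤ 3 / 10

variable {u : ℕ → ℝ} {κ τ : ℝ}

theorem Adm.le_two (hu : Adm Q u κ τ) (x : Finset Q.Ex) (j : Fin Q.L) : u (pos x j) ≤ 2 := by
  rw [← hu.one]
  exact hu.anti _ _ (one_le_pos x j)

/-- sum of the weights of the blocks up to `k` -/
noncomputable def UU (u : ℕ → ℝ) (x : Finset Q.Ex) (k : Fin Q.L) : ℝ := ∑ j ∈ Iic k, u (pos x j)

theorem Adm.UU_nonneg (hu : Adm Q u κ τ) (x : Finset Q.Ex) (k : Fin Q.L) : 0 ≤ UU u x k :=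
  sum_nonneg fun _ _ => hu.nonneg _

/-- the next state -/
noncomputable def nx (x F : Finset Q.Ex) : Finset Q.Ex := by
  classical
  exact (GG Q).select x (symmDiff x F)

theorem exp_sub_one_le {a : ℝ} (h0 : 0 ≤ a) (h1 : a ≤ 3 / 10) : Real.exp a - 1 ≤ 2 * a := by
  have h := Real.exp_bound_div_one_sub_of_interval h0 (by linarith : a < 1)
  have h2 : 1 / (1 - a) ≤ 1 + 2 * a := by
    rw [div_le_iff₀ (by linarith)]
    nlinarith
  linarith

theorem exp_sub_one_le4 {a : ℝ} (h0 : 0 ≤ a) (h1 : a ≤ 2) : Real.exp a - 1 ≤ 4 * a := by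
  -- convexity on `[0, 2]`
  have hconv := convexOn_exp.2 (Set.mem_univ (0 : ℝ)) (Set.mem_univ (2 : ℝ))
    (by linarith : (0 : ℝ) ≤ 1 - a / 2) (by linarith : (0 : ℝ) ≤ a / 2) (by ring)
  simp only [smul_eq_mul, mul_zero, zero_add, Real.exp_zero, mul_one] at hconv
  have h2 : a / 2 * 2 = a := by ring
  rw [h2] at hconv
  have h3 : Real.exp 2 ≤ 9 := by
    have h4 : Real.exp 2 = Real.exp 1 * Real.exp 1 := by rw [← Real.exp_add]; norm_num
    rw [h4]
    have := Real.exp_one_lt_d9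
    have h5 := Real.exp_pos 1
    nlinarith
  nlinarith

/-- the bound for the change of one block -/
theorem rho (hu : Adm Q u κ τ) {x : Finset Q.Ex} (hx : St x) (j : Fin Q.L)
    (hj : 0 < u (pos x j)) :
    ∃ (e0 : Q.Ex) (U : Finset Q.Ex) (c : Q.Ex → ℝ), bl e0 = some j ∧ (∀ f ∈ U, bl f = some j) ∧
      e0 ∉ U ∧ (∀ f, 0 ≤ c f) ∧
      ∑ f ∈ U, c f ≤ (4 + 2 * κ * (Q.n + Q.g)) * u (pos x j) + 2 * τ * (Q.n + Q.g) ∧
      ∀ F, Real.exp (-u (pos (nx x F) j)) ≤ Real.exp (-u (pos x j)) *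
        (1 + ∑ f ∈ U, c f * (if e0 ∈ F ∧ f ∈ F then 1 else 0)) := by
  classical
  have h1 := hu.bd _ hj
  obtain ⟨e0, f0, U, hb, hU, he0, hf0, hcard, hF⟩ := fact hx j (by omega)
  obtain ⟨i, hi⟩ : ∃ i, i = pos x j := ⟨_, rfl⟩
  rw [← hi] at hj hF ⊢
  obtain ⟨δ, hδ⟩ : ∃ δ, δ = u i - u (i + 1) := ⟨_, rfl⟩
  have hδ0 : 0 ≤ δ := by rw [hδ]; linarith [hu.anti i (i + 1) (by omega)]
  have hδ1 : δ ≤ κ * u i + τ := by rw [hδ]; exact hu.drop i
  have hu2 : u i ≤ 2 := by rw [hi]; exact hu.le_two x j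
  have hδ2 : δ ≤ 3 / 10 := by
    have := hu.small
    nlinarith [hu.κ0]
  have hE1 : 0 ≤ Real.exp δ - 1 := by linarith [Real.add_one_le_exp δ]
  have hE2 : 0 ≤ Real.exp (u i) - 1 := by linarith [Real.add_one_le_exp (u i), hu.nonneg i]
  refine ⟨e0, U, fun f => (Real.exp δ - 1) + if f = f0 then Real.exp (u i) - 1 else 0, hb, hU,
    he0, ?_, ?_, ?_⟩
  · intro f
    show (0 : ℝ) ≤ (Real.exp δ - 1) + if f = f0 then Real.exp (u i) - 1 else 0
    split_ifs
    · linarith
    · linarith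
  · rw [sum_add_distrib, sum_const, nsmul_eq_mul, sum_ite_eq' U f0 fun _ => Real.exp (u i) - 1,
      if_pos hf0]
    have h2 := exp_sub_one_le hδ0 hδ2
    have h3 := exp_sub_one_le4 (hu.nonneg i) hu2
    have h4 : (U.card : ℝ) ≤ Q.n + Q.g := by exact_mod_cast hcard
    have h5 : (U.card : ℝ) * (Real.exp δ - 1) ≤ (Q.n + Q.g) * (2 * (κ * u i + τ)) :=
      mul_le_mul h4 (by linarith) hE1 (by positivity)
    nlinarith
  · intro F
    obtain ⟨hF1, hF2⟩ := hF F
    have hnx : nx x F = (GG Q).select x (symmDiff x F) := by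
      unfold nx
      congr!
    rw [hnx]
    obtain ⟨y, hy⟩ : ∃ y, y = pos ((GG Q).select x (symmDiff x F)) j := ⟨_, rfl⟩
    rw [← hy] at hF1 hF2 ⊢
    have hs0 : ∀ f ∈ U, 0 ≤ ((Real.exp δ - 1) + if f = f0 then Real.exp (u i) - 1 else 0) *
        (if e0 ∈ F ∧ f ∈ F then (1 : ℝ) else 0) := by
      intro f _
      apply mul_nonneg
      · split_ifs <;> linarith
      · split_ifs <;> norm_num
    have hex := Real.exp_pos (-u i)
    rcases Nat.lt_or_ge i y with h | h
    · rcases Nat.eq_or_lt_of_le h with h' | h'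
      · obtain ⟨a1, f, a2, a3⟩ := hF1 h
        have h5 := single_le_sum hs0 a2
        have h7 : (if e0 ∈ F ∧ f ∈ F then (1 : ℝ) else 0) = 1 := if_pos ⟨a1, a3⟩
        rw [h7, mul_one] at h5
        have h6 : Real.exp δ ≤ 1 + ∑ f ∈ U, ((Real.exp δ - 1) + if f = f0 then
            Real.exp (u i) - 1 else 0) * (if e0 ∈ F ∧ f ∈ F then (1 : ℝ) else 0) := by
          have : (0 : ℝ) ≤ if f = f0 then Real.exp (u i) - 1 else 0 := by
            split_ifs <;> linarith
          linarith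
        calc Real.exp (-u y) = Real.exp (-u i) * Real.exp δ := by
              rw [← Real.exp_add, ← h', hδ]
              congr 1
              ring
          _ ≤ _ := mul_le_mul_of_nonneg_left h6 hex.le
      · obtain ⟨a1, a3⟩ := hF2 h'
        have h5 := single_le_sum hs0 hf0
        have h7 : (if e0 ∈ F ∧ f0 ∈ F then (1 : ℝ) else 0) = 1 := if_pos ⟨a1, a3⟩
        rw [h7, mul_one, if_pos rfl] at h5
        have h6 : Real.exp (u i) ≤ 1 + ∑ f ∈ U, ((Real.exp δ - 1) + if f = f0 then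
            Real.exp (u i) - 1 else 0) * (if e0 ∈ F ∧ f ∈ F then (1 : ℝ) else 0) := by
          linarith
        calc Real.exp (-u y) ≤ 1 := Real.exp_le_one_iff.2 (by linarith [hu.nonneg y])
          _ = Real.exp (-u i) * Real.exp (u i) := by rw [← Real.exp_add]; simp
          _ ≤ _ := mul_le_mul_of_nonneg_left h6 hex.le
    · have h5 : 0 ≤ ∑ f ∈ U, ((Real.exp δ - 1) + if f = f0 then
            Real.exp (u i) - 1 else 0) * (if e0 ∈ F ∧ f ∈ F then (1 : ℝ) else 0) :=
        sum_nonneg hs0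
      have h6 : Real.exp (-u y) ≤ Real.exp (-u i) :=
        Real.exp_le_exp.2 (by linarith [hu.anti y i h])
      nlinarith

/-- the bound for the change of the potential of the blocks up to `k` -/
theorem step_le (hcard : 2 ≤ Fintype.card Q.Ex) (hu : Adm Q u κ τ) {x : Finset Q.Ex} (hx : St x)
    (k : Fin Q.L)
    (𝒢 : Finset (Finset Q.Ex))
    (h𝒢 : ∀ F ∈ 𝒢, Real.exp (-UU u (nx x F) k) ≤ Real.exp (-UU u x k) / 2) :
    ∑ F : Finset Q.Ex, flipProb F * Real.exp (-UU u (nx x F) k) ≤ Real.exp (-UU u x k) *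
      (Real.exp (((4 + 2 * κ * (Q.n + Q.g)) * UU u x k + Q.L * (2 * τ * (Q.n + Q.g))) *
        (1 / (Fintype.card Q.Ex : ℝ)) ^ 2) - 1 / 2 * ∑ F ∈ 𝒢, flipProb F) := by
  classical
  have hfp := flipProb_nonneg (E := Q.Ex) hcard
  have : Nonempty Q.Ex := Fintype.card_pos_iff.1 (by omega)
  choose! e0 U c hb hU he0 hc0 hcs hF using fun j (hj : 0 < u (pos x j)) => rho hu hx j hj
  set s : Finset (Fin Q.L) := (Iic k).filter (fun j => 0 < u (pos x j)) with hs
  set ρ : Finset Q.Ex → ℝ := fun F =>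
    ∏ j ∈ s, (1 + ∑ f ∈ U j, c j f * (if e0 j ∈ F ∧ f ∈ F then 1 else 0)) with hρ
  have hsum0 : ∀ j ∈ s, ∀ F : Finset Q.Ex,
      0 ≤ ∑ f ∈ U j, c j f * (if e0 j ∈ F ∧ f ∈ F then (1 : ℝ) else 0) := by
    intro j hj F
    rw [hs, mem_filter] at hj
    refine sum_nonneg fun f _ => mul_nonneg (hc0 j hj.2 f) ?_
    split_ifs <;> norm_num
  have hρ1 : ∀ F, 1 ≤ ρ F := by
    intro F
    rw [hρ]
    simp only
    have : (1 : ℝ) = ∏ j ∈ s, 1 := by simp
    rw [this]
    apply prod_le_prod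
    · intro j _; norm_num
    · intro j hj
      have := hsum0 j hj F
      simp only [prod_const_one]
      linarith
  have hexpprod : ∀ y : Finset Q.Ex, Real.exp (-UU u y k) = ∏ j ∈ Iic k, Real.exp (-u (pos y j)) := by
    intro y
    unfold UU
    rw [← sum_neg_distrib, Real.exp_sum]
  have hkey : ∀ F, Real.exp (-UU u (nx x F) k) ≤ Real.exp (-UU u x k) * ρ F := by
    intro F
    rw [hexpprod, hexpprod, hρ]
    simp only
    rw [hs, prod_filter, ← prod_mul_distrib]
    apply prod_le_prod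
    · intro j _
      exact (Real.exp_pos _).le
    · intro j _
      by_cases h : 0 < u (pos x j)
      · rw [if_pos h]
        exact hF j h F
      · rw [if_neg h, mul_one]
        have h1 : u (pos x j) = 0 := le_antisymm (not_lt.1 h) (hu.nonneg _)
        rw [h1]
        exact Real.exp_le_exp.2 (by linarith [hu.nonneg (pos (nx x F) j)])
  have hE : ∑ F : Finset Q.Ex, flipProb F * ρ F =
      ∏ j ∈ s, (1 + (∑ f ∈ U j, c j f) * (1 / (Fintype.card Q.Ex : ℝ)) ^ 2) := by
    have h := prod_prob (E := Q.Ex) s e0 U c (fun j hj => he0 j (mem_filter.1 hj).2) (by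
      intro j hj j' hj' hne
      have h1 := (mem_filter.1 hj).2
      have h2 := (mem_filter.1 hj').2
      rw [disjoint_left]
      intro a ha ha'
      have b1 : bl a = some j := by
        rw [mem_insert] at ha
        rcases ha with rfl | ha
        · exact hb j h1
        · exact hU j h1 a ha
      have b2 : bl a = some j' := by
        rw [mem_insert] at ha'
        rcases ha' with rfl | ha'
        · exact hb j' h2
        · exact hU j' h2 a ha'
      rw [b1] at b2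
      exact hne (Option.some.inj b2)) ∅ (fun _ _ => disjoint_empty_left _)
    simp only [empty_subset, if_true, one_mul, card_empty, pow_zero] at h
    exact h
  have hEle : ∑ F : Finset Q.Ex, flipProb F * ρ F ≤
      Real.exp (((4 + 2 * κ * (Q.n + Q.g)) * UU u x k + Q.L * (2 * τ * (Q.n + Q.g))) *
        (1 / (Fintype.card Q.Ex : ℝ)) ^ 2) := by
    rw [hE]
    have h1 : ∏ j ∈ s, (1 + (∑ f ∈ U j, c j f) * (1 / (Fintype.card Q.Ex : ℝ)) ^ 2) ≤
        ∏ j ∈ s, Real.exp ((∑ f ∈ U j, c j f) * (1 / (Fintype.card Q.Ex : ℝ)) ^ 2) := by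
      apply prod_le_prod
      · intro j hj
        have h2 : 0 ≤ ∑ f ∈ U j, c j f := sum_nonneg fun f _ => hc0 j (mem_filter.1 hj).2 f
        positivity
      · intro j _
        have := Real.add_one_le_exp ((∑ f ∈ U j, c j f) * (1 / (Fintype.card Q.Ex : ℝ)) ^ 2)
        linarith
    refine h1.trans ?_
    rw [← Real.exp_sum, ← sum_mul]
    apply Real.exp_le_exp.2
    apply mul_le_mul_of_nonneg_right _ (by positivity)
    have h2 : ∑ j ∈ s, ∑ f ∈ U j, c j f ≤ ∑ j ∈ s, ((4 + 2 * κ * (Q.n + Q.g)) * u (pos x j) +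
        2 * τ * (Q.n + Q.g)) := sum_le_sum fun j hj => hcs j (mem_filter.1 hj).2
    refine h2.trans ?_
    rw [sum_add_distrib, ← mul_sum, sum_const, nsmul_eq_mul]
    have hκ := hu.κ0
    have hτ := hu.τ0
    apply add_le_add
    · apply mul_le_mul_of_nonneg_left _ (by positivity)
      unfold UU
      exact sum_le_sum_of_subset_of_nonneg (filter_subset _ _) fun _ _ _ => hu.nonneg _
    · apply mul_le_mul_of_nonneg_right _ (by positivity)
      have : s.card ≤ Q.L := by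
        have := card_le_univ s
        rwa [Fintype.card_fin] at this
      exact_mod_cast this
  have hsplit : ∑ F : Finset Q.Ex, flipProb F * Real.exp (-UU u (nx x F) k) ≤
      ∑ F : Finset Q.Ex, (flipProb F * (Real.exp (-UU u x k) * ρ F) -
        (if F ∈ 𝒢 then flipProb F * (Real.exp (-UU u x k) * (1 / 2)) else 0)) := by
    refine sum_le_sum fun F _ => ?_
    have hW := Real.exp_pos (-UU u x k)
    split_ifs with h
    · rw [← mul_sub]
      apply mul_le_mul_of_nonneg_left _ (hfp F)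
      have h1 := h𝒢 F h
      have h2 := hρ1 F
      nlinarith
    · rw [sub_zero]
      exact mul_le_mul_of_nonneg_left (hkey F) (hfp F)
  refine hsplit.trans ?_
  rw [sum_sub_distrib, sum_ite_mem, univ_inter]
  have h3 : ∑ F : Finset Q.Ex, flipProb F * (Real.exp (-UU u x k) * ρ F) =
      Real.exp (-UU u x k) * ∑ F : Finset Q.Ex, flipProb F * ρ F := by
    rw [mul_sum]
    exact sum_congr rfl fun F _ => by ring
  have h4 : ∑ F ∈ 𝒢, flipProb F * (Real.exp (-UU u x k) * (1 / 2)) =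
      Real.exp (-UU u x k) * (1 / 2 * ∑ F ∈ 𝒢, flipProb F) := by
    rw [mul_sum, mul_sum]
    exact sum_congr rfl fun F _ => by ring
  rw [h3, h4, ← mul_sub]
  exact mul_le_mul_of_nonneg_left (by linarith) (Real.exp_pos _).le

end Pm

end Pool.Agent.V5helper67.EAL
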